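import Pool.Agent.Helper10.BD.Goals
import Pool.Agent.Helper50.BC.ASM

open scoped ContDiff
open Real Filter Topology

namespace Pool.Agent.Helper10.BD.ABS

open Pool.Agent.Helper50.BC (E comp2 dderiv two_le_infty)
open Pool.Agent.Helper10.BD

theorem t : G_ABS := by
  intro n V _ _ Ψ G γ t N ν2 A S a B b K hΨ hG hγ hGγ hν hN hA hS ha hB hb hK h1 h2 h3 h4 h5 horth hSb
  have e3 := comp2 hΨ hγ
  have e4 := comp2 hG hγ
  have e5 : deriv (deriv (fun s => G (γ s))) t = 0 := by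
    have h : (fun s => G (γ s)) =ᶠ[𝓝 t] fun _ => (0 : ℝ) := hGγ
    rw [h.deriv.deriv_eq]
    simp
  rw [e5] at e4
  set γ1 := deriv γ t with hγ1
  set γ2 := deriv (deriv γ) t with hγ2
  set μ : ℝ := fderiv ℝ G (γ t) γ2 / ν2 with hμ
  have hμν : μ * ν2 = fderiv ℝ G (γ t) γ2 := by rw [hμ]; field_simp
  have hμb : |μ| * √ν2 ≤ K * A := by
    have a3 : 0 < √ν2 := Real.sqrt_pos.2 hν
    have a4 : √ν2 * √ν2 = ν2 := Real.mul_self_sqrt hν.le
    have a2 : |μ| * ν2 ≤ K * √ν2 * A := by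
      have : |μ| * ν2 = |μ * ν2| := by rw [abs_mul, abs_of_pos hν]
      rw [this, hμν]
      have : fderiv ℝ G (γ t) γ2 = -(fderiv ℝ (fderiv ℝ G) (γ t) γ1 γ1) := by linarith
      rw [this, abs_neg]
      exact h1
    have a5 : √ν2 * (|μ| * √ν2) ≤ √ν2 * (K * A) := by
      calc √ν2 * (|μ| * √ν2) = |μ| * (√ν2 * √ν2) := by ring
        _ = |μ| * ν2 := by rw [a4]
        _ ≤ K * √ν2 * A := a2
        _ = √ν2 * (K * A) := by ring
    exact le_of_mul_le_mul_left a5 a3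
  set τ : V := γ2 - μ • N with hτ
  have hτ0 : fderiv ℝ G (γ t) τ = 0 := by
    rw [hτ, map_sub, map_smul, hN, smul_eq_mul, hμν, sub_self]
  set Γ2 : E n := deriv (deriv (fun s => Ψ (γ s))) t with hΓ2
  have f3 := horth τ hτ0
  have f1 : γ2 = τ + μ • N := by rw [hτ]; abel
  have f2 : Γ2 = fderiv ℝ (fderiv ℝ Ψ) (γ t) γ1 γ1 + fderiv ℝ Ψ (γ t) τ +
      μ • fderiv ℝ Ψ (γ t) N := by
    rw [e3, f1, map_add, map_smul, add_assoc]
  have f5 : ‖Γ2‖ ^ 2 ≤ ‖Γ2‖ * (b * A + B * (K * A)) := by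
    have a1 : ‖Γ2‖ ^ 2 = inner ℝ Γ2 (fderiv ℝ (fderiv ℝ Ψ) (γ t) γ1 γ1) +
        μ * inner ℝ Γ2 (fderiv ℝ Ψ (γ t) N) := by
      rw [← real_inner_self_eq_norm_sq]
      nth_rewrite 2 [f2]
      rw [inner_add_right, inner_add_right, f3, inner_smul_right]
      ring
    have a2 : inner ℝ Γ2 (fderiv ℝ (fderiv ℝ Ψ) (γ t) γ1 γ1) ≤ ‖Γ2‖ * (b * A) :=
      (real_inner_le_norm _ _).trans (mul_le_mul_of_nonneg_left h3 (norm_nonneg _))
    have a3 : μ * inner ℝ Γ2 (fderiv ℝ Ψ (γ t) N) ≤ ‖Γ2‖ * (B * (K * A)) := by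
      calc μ * inner ℝ Γ2 (fderiv ℝ Ψ (γ t) N)
          ≤ |μ * inner ℝ Γ2 (fderiv ℝ Ψ (γ t) N)| := le_abs_self _
        _ = |μ| * |inner ℝ Γ2 (fderiv ℝ Ψ (γ t) N)| := abs_mul _ _
        _ ≤ |μ| * (‖Γ2‖ * (B * √ν2)) := by
            refine mul_le_mul_of_nonneg_left ?_ (abs_nonneg _)
            exact (abs_real_inner_le_norm _ _).trans
              (mul_le_mul_of_nonneg_left h2 (norm_nonneg _))
        _ = ‖Γ2‖ * (B * (|μ| * √ν2)) := by ring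
        _ ≤ ‖Γ2‖ * (B * (K * A)) := by
            refine mul_le_mul_of_nonneg_left ?_ (norm_nonneg _)
            exact mul_le_mul_of_nonneg_left hμb hB
    rw [a1]
    linarith
  have f6 : ‖Γ2‖ ≤ b * A + B * (K * A) := by
    rcases (norm_nonneg Γ2).eq_or_lt with h0 | h0
    · rw [← h0]; positivity
    · have : ‖Γ2‖ * ‖Γ2‖ ≤ ‖Γ2‖ * (b * A + B * (K * A)) := by
        rw [← sq]; exact f5
      exact le_of_mul_le_mul_left this h0
  rw [h5] at h4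
  have f7 : a * ‖Γ2‖ ≤ a * (100 * S) := by
    calc a * ‖Γ2‖ ≤ a * (b * A + B * (K * A)) := mul_le_mul_of_nonneg_left f6 ha.le
      _ = (b + K * B) * (a * A) := by ring
      _ ≤ (b + K * B) * S ^ 2 := mul_le_mul_of_nonneg_left h4 (by positivity)
      _ = S * (S * (b + K * B)) := by ring
      _ ≤ S * (100 * a) := mul_le_mul_of_nonneg_left hSb hS.le
      _ = a * (100 * S) := by ring
  exact le_of_mul_le_mul_left f7 ha

end Pool.Agent.Helper10.BD.ABS
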