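import Pool.Agent.Helper10.BD.Goals

/-!
# Project BD: `G_ELEM`
-/

open Real

namespace Pool.Agent.Helper10.BD.ELEM

/-- linear in `G` form of the inequality (c) -/
lemma lin (e G : ℝ) (he : 0 < e) (he1 : e ≤ 1) (hG : 0 ≤ G) (hG2 : G ≤ 64 / 25)
    (h : e ≤ 3 / 4 ∨ 121 / 400 ≤ G) :
    ∃ r0 : ℝ, 0 < r0 ∧
      (2 - e) * e * G + 11 / 10 * e * (1 - e) ≤
        21 / 20 * r0 * (3 * (e ^ 2 * G + 1 - e) - r0 ^ 2) := by
  rcases le_total e (7 / 10) with h1 | h1
  · refine ⟨3 / 4, by norm_num, ?_⟩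
    -- value at G = 0 and at G = 64/25
    have a0 : 0 ≤ 21 / 20 * (3 / 4) * (3 * (1 - e) - (3 / 4) ^ 2) - 11 / 10 * e * (1 - e) := by
      nlinarith [sq_nonneg (e - 7 / 10), mul_nonneg he.le (sub_nonneg.2 h1)]
    have a1 : 0 ≤ 21 / 20 * (3 / 4) * (3 * (e ^ 2 * (64 / 25) + 1 - e) - (3 / 4) ^ 2) -
        11 / 10 * e * (1 - e) - (2 - e) * e * (64 / 25) := by
      nlinarith [sq_nonneg (e - 4 / 10), mul_nonneg he.le (sub_nonneg.2 h1)]
    have key : 21 / 20 * (3 / 4) * (3 * (e ^ 2 * G + 1 - e) - (3 / 4) ^ 2) -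
        ((2 - e) * e * G + 11 / 10 * e * (1 - e)) =
        (1 - G * (25 / 64)) * (21 / 20 * (3 / 4) * (3 * (1 - e) - (3 / 4) ^ 2) -
          11 / 10 * e * (1 - e)) +
        (G * (25 / 64)) * (21 / 20 * (3 / 4) * (3 * (e ^ 2 * (64 / 25) + 1 - e) - (3 / 4) ^ 2) -
        11 / 10 * e * (1 - e) - (2 - e) * e * (64 / 25)) := by
      ring
    have b0 : 0 ≤ 1 - G * (25 / 64) := by linarith
    have b1 : 0 ≤ G * (25 / 64) := by linarith
    have := mul_nonneg b0 a0
    have := mul_nonneg b1 a1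
    linarith
  · refine ⟨3 / 5, by norm_num, ?_⟩
    have a1 : 0 ≤ 21 / 20 * (3 / 5) * (3 * (e ^ 2 * (64 / 25) + 1 - e) - (3 / 5) ^ 2) -
        11 / 10 * e * (1 - e) - (2 - e) * e * (64 / 25) := by
      nlinarith [mul_nonneg (sub_nonneg.2 h1) (sub_nonneg.2 he1)]
    rcases h with h | h
    · have a0 : 0 ≤ 21 / 20 * (3 / 5) * (3 * (1 - e) - (3 / 5) ^ 2) - 11 / 10 * e * (1 - e) := by
        nlinarith [mul_nonneg (sub_nonneg.2 h1) (sub_nonneg.2 h)]
      have key : 21 / 20 * (3 / 5) * (3 * (e ^ 2 * G + 1 - e) - (3 / 5) ^ 2) -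
          ((2 - e) * e * G + 11 / 10 * e * (1 - e)) =
          (1 - G * (25 / 64)) * (21 / 20 * (3 / 5) * (3 * (1 - e) - (3 / 5) ^ 2) -
            11 / 10 * e * (1 - e)) +
          (G * (25 / 64)) * (21 / 20 * (3 / 5) * (3 * (e ^ 2 * (64 / 25) + 1 - e) - (3 / 5) ^ 2) -
          11 / 10 * e * (1 - e) - (2 - e) * e * (64 / 25)) := by
        ring
      have b0 : 0 ≤ 1 - G * (25 / 64) := by linarith
      have b1 : 0 ≤ G * (25 / 64) := by linarith
      have := mul_nonneg b0 a0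
      have := mul_nonneg b1 a1
      linarith
    · have a0 : 0 ≤ 21 / 20 * (3 / 5) * (3 * (e ^ 2 * (121 / 400) + 1 - e) - (3 / 5) ^ 2) -
          11 / 10 * e * (1 - e) - (2 - e) * e * (121 / 400) := by
        nlinarith [sq_nonneg (e - 91 / 100)]
      have key : (64 / 25 - 121 / 400) * (21 / 20 * (3 / 5) * (3 * (e ^ 2 * G + 1 - e) - (3 / 5) ^ 2) -
          ((2 - e) * e * G + 11 / 10 * e * (1 - e))) =
          (64 / 25 - G) * (21 / 20 * (3 / 5) * (3 * (e ^ 2 * (121 / 400) + 1 - e) - (3 / 5) ^ 2) -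
            11 / 10 * e * (1 - e) - (2 - e) * e * (121 / 400)) +
          (G - 121 / 400) * (21 / 20 * (3 / 5) * (3 * (e ^ 2 * (64 / 25) + 1 - e) - (3 / 5) ^ 2) -
          11 / 10 * e * (1 - e) - (2 - e) * e * (64 / 25)) := by
        ring
      have b0 : 0 ≤ 64 / 25 - G := by linarith
      have b1 : 0 ≤ G - 121 / 400 := by linarith
      have := mul_nonneg b0 a0
      have := mul_nonneg b1 a1
      nlinarith

theorem t : G_ELEM := by
  intro e G V s y he he1 hG hG2 hV hs hy hyG hye h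
  set D : ℝ := e ^ 2 * G + 1 - e with hD
  have hDlow : 1 / 4 ≤ D := by
    rcases h with h | h
    · have : 0 ≤ e ^ 2 * G := by positivity
      rw [hD]; linarith
    · rw [hD]; nlinarith [mul_le_mul_of_nonneg_left h (sq_nonneg e)]
  have hD0 : 0 < D := by linarith
  set r : ℝ := √D with hr
  have hr2 : r ^ 2 = D := Real.sq_sqrt hD0.le
  have hr0 : 0 < r := Real.sqrt_pos.2 hD0
  -- (a)
  have ha : 1 ≤ 21 / 10 * r := by
    have : (1 / 2 : ℝ) ≤ r := by
      rw [hr]
      exact Real.le_sqrt_of_sq_le (by norm_num; exact hDlow)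
    linarith
  -- (b)
  have hb : 11 / 10 * e ≤ 21 / 10 * r := by
    have h1 : (11 / 10 * e) ^ 2 ≤ (21 / 10 * r) ^ 2 := by
      rw [mul_pow (21 / 10) r, hr2, hD]
      rcases h with h | h
      · have : 0 ≤ e ^ 2 * G := by positivity
        nlinarith [mul_nonneg he.le (sub_nonneg.2 h)]
      · nlinarith [mul_le_mul_of_nonneg_left h (sq_nonneg e)]
    exact le_of_sq_le_sq h1 (by positivity) |> fun h => by simpa using h
  -- (c)
  have hc : (2 - e) * e * G + 11 / 10 * e * (1 - e) ≤ 21 / 10 * (D * r) := by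
    obtain ⟨r0, hr00, hlin⟩ := lin e G he he1 hG hG2 h
    have h1 : r0 * (3 * r ^ 2 - r0 ^ 2) ≤ 2 * (r ^ 2 * r) := by
      nlinarith [mul_nonneg (sq_nonneg (r - r0)) (by positivity : (0 : ℝ) ≤ 2 * r + r0)]
    rw [← hr2]
    rw [← hD, ← hr2] at hlin
    nlinarith
  by_cases hcase : 11 / 10 * e + 2 * e * G ≤ 21 / 10 * r
  · have h1 : 2 * e * y ≤ 2 * e * (G * V) := by
      apply mul_le_mul_of_nonneg_left hyG; positivity
    have h2 : (11 / 10 * e + 2 * e * G) * V ≤ 21 / 10 * r * V := mul_le_mul_of_nonneg_right hcase hV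
    have h3 : 1 * s ≤ 21 / 10 * r * s := mul_le_mul_of_nonneg_right ha hs
    nlinarith
  · push Not at hcase
    have hGpos : 0 < G := by
      rcases hG.eq_or_lt with h0 | h0
      · exfalso
        rw [← h0] at hcase
        linarith
      · exact h0
    set m1 : ℝ := (21 / 10 * r - 11 / 10 * e) / G with hm1
    have hm1G : m1 * G = 21 / 10 * r - 11 / 10 * e := by
      rw [hm1]; field_simp
    have hm1n : 0 ≤ m1 := div_nonneg (by linarith) hG
    have hm1e : m1 ≤ 2 * e := by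
      rw [hm1, div_le_iff₀ hGpos]
      linarith
    set m2 : ℝ := (2 * e - m1) / e ^ 2 with hm2
    have hm2n : 0 ≤ m2 := div_nonneg (by linarith) (by positivity)
    have hm2e : m2 * e ^ 2 = 2 * e - m1 := by
      rw [hm2]; field_simp
    have hA : 0 ≤ m1 * (G * V - y) := mul_nonneg hm1n (by linarith)
    have hB : 0 ≤ m2 * ((1 - e) * s - e ^ 2 * y) := mul_nonneg hm2n (by linarith)
    have hC : 1 + m2 * (1 - e) ≤ 21 / 10 * r := by
      have h1 : 0 < e ^ 2 * G := by positivity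
      have h2 : (e ^ 2 * G) * (1 + m2 * (1 - e)) ≤ (e ^ 2 * G) * (21 / 10 * r) := by
        have h3 : (e ^ 2 * G) * (1 + m2 * (1 - e)) =
            e ^ 2 * G + (m2 * e ^ 2) * G * (1 - e) := by ring
        rw [h3, hm2e]
        have h4 : (2 * e - m1) * G * (1 - e) = 2 * e * G * (1 - e) - (m1 * G) * (1 - e) := by ring
        rw [h4, hm1G]
        have h5 : 21 / 10 * (D * r) = 21 / 10 * r * (e ^ 2 * G) + 21 / 10 * r * (1 - e) := by
          rw [hD]; ring
        rw [h5] at hc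
        nlinarith
      exact le_of_mul_le_mul_left h2 h1
    have hfin : s + 2 * e * y + 11 / 10 * e * V ≤
        s * (1 + m2 * (1 - e)) + V * (11 / 10 * e + m1 * G) := by
      have : s + 2 * e * y + 11 / 10 * e * V + m1 * (G * V - y) +
          m2 * ((1 - e) * s - e ^ 2 * y) = s * (1 + m2 * (1 - e)) + V * (11 / 10 * e + m1 * G) +
          y * (2 * e - m1 - m2 * e ^ 2) := by ring
      rw [hm2e] at this
      linarith [this]
    rw [hm1G] at hfin
    have h6 : s * (1 + m2 * (1 - e)) ≤ s * (21 / 10 * r) := mul_le_mul_of_nonneg_left hC hs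
    nlinarith

end Pool.Agent.Helper10.BD.ELEM
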