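import Pool.Agent.Helper10.BD.Goals
import Pool.Agent.Helper50.BC.TRG
import Pool.Agent.Helper35.BC.RAD
import Pool.Agent.Helper35.BC.EIN
import Pool.Agent.Helper86.BC.JLA
import Pool.Agent.Helper8.BC.DER
import Pool.Agent.Helper2.BC.SHX
import Pool.Agent.Helper74.BC.NTV
import Pool.Agent.Helper12.BC.MOM
import Pool.Agent.Helper56.BC.CNT
import Pool.Agent.Helper30.BC.EMP

/-!
# Project BD: the theorem from the goals
-/

open scoped ContDiff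
open Real Filter Topology

namespace Pool.Agent.Helper10.BD

open Pool.Agent.Helper50.BC (E EMP_data)

/-- the thick map of the random trigonometric map -/
theorem thick_random (q j : ℕ) (hq : 2 ≤ q) (hj : (10 : ℝ) ^ 7 * (q * Real.log q) ≤ j) :
    ∃ Ψ : E q × E j → E (q + j), THK Ψ (12769 / 10000) (17 / 20) (277 / 100) 9 := by
  have hRAD := Pool.Agent.Helper35.BC.goalRAD
  obtain ⟨F, hF⟩ := Pool.Agent.Helper50.BC.goalTRG (Pool.Agent.Helper86.BC.goalJLA hRAD)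
    Pool.Agent.Helper8.BC.goalDER Pool.Agent.Helper2.BC.goalSHX Pool.Agent.Helper74.BC.goalNTV
    (Pool.Agent.Helper12.BC.goalMOM hRAD) Pool.Agent.Helper56.BC.goalCNT q j hq hj
  obtain ⟨Ψ, hΨs, hΨ⟩ := Pool.Agent.Helper30.BC.goalEMP Pool.Agent.Helper35.BC.goalEIN q j F hF
  refine ⟨Ψ, hΨs, fun p hp => ?_⟩
  obtain ⟨h1, h2, h3, h4⟩ := hΨ p hp
  refine ⟨?_, h2, ?_, h4⟩
  · have := pow_le_pow_left₀ (norm_nonneg _) h1 2
    linarith [this]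
  · intro ξ
    refine (h3 ξ).trans ?_
    refine mul_le_mul_of_nonneg_right (by norm_num) (by positivity)

/-- the thick map with the variables y, both cases -/
theorem thick (hCIR : G_CIR) (hLIFT : G_LIFT) (q r j : ℕ) (hqj : q ≤ j)
    (h : q ≤ 30 ∨ (10 : ℝ) ^ 7 * (q * Real.log q) ≤ j) :
    ∃ (Ψ : E q × E r × E j → E (q + r + j)) (S a B b : ℝ), THK3 Ψ S a B b ∧ 0 < S ∧ 0 < a ∧
      0 ≤ B ∧ 0 ≤ b ∧ S * (b + 21 * B) ≤ 100 * a := by
  by_cases h30 : q ≤ 30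
  · obtain ⟨Ψ, hΨ⟩ := hCIR q j hqj h30
    obtain ⟨Ψ', hΨ'⟩ := hLIFT q r j Ψ _ _ _ _ (12 / 5) hΨ one_pos (by norm_num) (by norm_num)
      (by norm_num) (by norm_num)
    exact ⟨Ψ', _, _, _, _, hΨ', by norm_num, by norm_num, by norm_num, by norm_num, by norm_num⟩
  · have hj := h.resolve_left h30
    obtain ⟨Ψ, hΨ⟩ := thick_random q j (by omega) hj
    obtain ⟨Ψ', hΨ'⟩ := hLIFT q r j Ψ _ _ _ _ (5 / 4) hΨ (by norm_num) (by norm_num) (by norm_num)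
      (by norm_num) (by norm_num)
    exact ⟨Ψ', _, _, _, _, hΨ', by norm_num, by norm_num, by norm_num, by norm_num, by norm_num⟩

/-- Theorem H from the goals. -/
theorem main (hPROF : G_PROF) (hPHYS : G_PHYS) (hMOB : G_MOB) (hCIR : G_CIR) (hLIFT : G_LIFT)
    (hASM : G_ASM) (hREG : G_REG) (q r j : ℕ) (hqj : q ≤ j)
    (h : q ≤ 30 ∨ (10 : ℝ) ^ 7 * (q * Real.log q) ≤ j)
    (u : E q → ℝ) (hu : ContDiff ℝ ∞ u) (hK : IsCompact {x | 0 ≤ u x})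
    (hr : ∀ x, u x = 0 ∨ u x = 1 → fderiv ℝ u x ≠ 0) :
    IsCompact (XX r j u) ∧ (∀ p ∈ XX r j u, ∃ ξ, ¬ TT u p ξ) ∧
      ∃ f : E q × E r × E j → E (q + r + j), GOOD u f := by
  obtain ⟨hc, hreg⟩ := hREG q r j u hu hK hr
  refine ⟨hc, hreg, ?_⟩
  obtain ⟨l, P, ν, μ, hP, hN⟩ := hPROF q u hu hK hr
  obtain ⟨O, θ, g, hM⟩ := hMOB q r u l P ν μ hu hP.1 hN
  obtain ⟨Ψ, S, a, B, b, hΨ, hS, ha, hB, hb, hSb⟩ := thick hCIR hLIFT q r j hqj h
  exact hASM q r j u (Phi r P) O θ g _ Ψ S a B b hu (hPHYS q r P hP) hM hΨ hS ha hB hb hSb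

end Pool.Agent.Helper10.BD
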