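import Pool.Agent.Helper50.BC.Goals

/-!
# Project BD (MP_eec6f5_gt, weight 1): curvature ≤ 100, suspension type hypersurfaces

THEOREM H.  q ≥ 1, r ≥ 0, j ≥ q, and (q ≤ 30 or j ≥ 10^7 q log q).  u : R^q → R smooth, {u ≥ 0}
compact, Du ≠ 0 on {u = 0} and on {u = 1}.  Then
X_u = {(x,y,v) in R^q × R^r × R^j : |v|^2 + (|y|^2 - 1)^2 = u(x)} is a compact regular hypersurface
and has an immersion in the unit ball of R^(q+r+j) with curvature ≤ 100.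

PLAN.  Everything is explicit.
1. `G_ELEM`, `G_QF`, `G_PHYS`: the physical hypersurface |Z|^2 = Φ(X,Y),
   Φ = (1 - exp(-2.7 (P(X) - (s-2)^2)))/100, s = √(1 + |Y|²/c), c = 729/20000, has curvature ≤ 21 if
   P : R^q → R satisfies `PROF_data`.
2. `G_PRC`, `G_PRD`, `G_PRS` (then `G_PROF`): given u there are l > 0 and such a P with
   P(l x) = ν(x) u(x), 1 - P(l x) = μ(x) (1 - u(x)), ν, μ > 0 smooth.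
3. `G_MBA`, `G_MOB`: the exact local diffeomorphism (x,y,v) ↦ (l x, A y, g v) from X_u to the
   physical hypersurface (Moebius map in |y|²).
4. `G_CIR`, `G_LIFT`: the thick maps.
5. `G_ABS`, `G_ASM`, `G_REG`: assembly.
-/

open scoped ContDiff
open Real Filter Topology

namespace Pool.Agent.Helper10.BD

open Pool.Agent.Helper50.BC (E EMP_data G_CHI)

/-! ## The physical hypersurface -/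

/-- ELEM.  (e = exp(-z), G = |∇z|²/400, V = |(ξ,η)|², s = |ζ|², y = (Dz(ξ,η)/20)².)

PROOF.  Put D = e²G + 1 - e > 0 and r = √D.  Three facts:
(a) 1 ≤ 2.1 r: if e ≤ 3/4 then D ≥ 1/4; if G ≥ 121/400 then D ≥ 0.3025 e² + 1 - e ≥ 0.3025 (the
    quadratic 0.3025 e² - e + 1 decreases on [0,1]); and 2.1·0.5 ≥ 1.
(b) 1.1 e ≤ 2.1 r: 1.21 e² ≤ 4.41 D (if e ≤ 3/4: 1.21·0.5625 ≤ 4.41·0.25; else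
    4.41 (0.3025 e² + 1 - e) - 1.21 e² = 4.41 - 4.41 e + 0.124 e² ≥ 0).
(c) e ((2-e) G + 1.1 (1-e)) ≤ 2.1 D r.  Equivalently, as e² G = r² - 1 + e:
    (2-e)(r² - 1 + e) + 1.1 e² (1-e) ≤ 2.1 e r³.  It was checked on a fine grid (the difference
    divided by e² is at least 0.034, the minimum is at e = 0.909, G = 0.3025).  For a proof use
    r³ ≥ r0 (3 r² - r0²)/2 for every r0 ≥ 0 (as 2r³ + r0³ ≥ 3 r² r0) with a suitable constant r0 on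
    each of a few intervals of e; this makes (c) linear in G for fixed e (so only the end points of G
    matter).  E.g. r0 may also be a linear function of e.
Now the claim: if 1.1 e + 2 e G ≤ 2.1 r: s + 2ey + 1.1eV ≤ s + (2eG + 1.1e)V ≤ 2.1 r (V+s) by (a).
Otherwise G > 0; put m1 = (2.1 r - 1.1 e)/G ≥ 0 (by (b)), m2 = (2e - m1)/e² ≥ 0, so
s + 2ey + 1.1eV ≤ s + 2ey + 1.1eV + m1 (GV - y) + m2 ((1-e)s - e²y)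
= s (1 + m2 (1-e)) + V (1.1 e + m1 G), with 1.1 e + m1 G = 2.1 r and
1 + m2 (1-e) ≤ 2.1 r because this is (c) after multiplication by e² G (e²G + 2eG(1-e) -
(2.1 r - 1.1 e)(1-e) ≤ 2.1 r e² G). -/
def G_ELEM : Prop := ∀ e G V s y : ℝ, 0 < e → e ≤ 1 → 0 ≤ G → G ≤ 64 / 25 → 0 ≤ V → 0 ≤ s →
  0 ≤ y → y ≤ G * V → e ^ 2 * y ≤ (1 - e) * s → (e ≤ 3 / 4 ∨ 121 / 400 ≤ G) →
  s + 2 * e * y + 11 / 10 * e * V ≤ 21 / 10 * √(e ^ 2 * G + 1 - e) * (V + s)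

/-- the function s(Y) = √(1 + |Y|²/c), c = 729/20000 -/
noncomputable def sY {r : ℕ} (Y : E r) : ℝ := √(1 + 20000 / 729 * ‖Y‖ ^ 2)

/-- the function (s - 2)² -/
noncomputable def QY {r : ℕ} (Y : E r) : ℝ := (sY Y - 2) ^ 2

/-- QF.  The function Q.

PROOF.  1 + |Y|²/c ≥ 1 > 0, so s is smooth, Ds(η) = <Y,η>/(c s), |Y|² = c (s² - 1),
D²s(η,η) = |η|²/(c s) - <Y,η>²/(c² s³).  DQ(η) = 2 (s-2) <Y,η>/(c s), i.e. fderiv Q Y is the functional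
of the vector (2(s-2)/(c s)) • Y, of norm² 4(s-2)²(s²-1)/(c s²).
D²Q(η,η) = 2 (Ds η)² + 2 (s-2) D²s(η,η) = (2/c) [(1 - 2/s)|η|² + 2a/s³] with a = <Y,η>²/c in
[0, (s²-1)|η|²].  It is ≥ -(2/c)|η|² as s ≥ 1, and ≤ (2/c)|η|² (1 - 2/s + 2(s²-1)/s³) =
(2/c)|η|² (1 - 2/s³).  (2/c = 40000/729.) -/
def G_QF : Prop := ∀ r : ℕ, ContDiff ℝ ∞ (QY (r := r)) ∧
  ∀ Y : E r, 1 ≤ sY Y ∧ ‖Y‖ ^ 2 = 729 / 20000 * (sY Y ^ 2 - 1) ∧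
    ‖fderiv ℝ (QY (r := r)) Y‖ ^ 2 =
      80000 / 729 * ((sY Y - 2) ^ 2 * (1 - (sY Y)⁻¹ ^ 2)) ∧
    ∀ η, |fderiv ℝ (fderiv ℝ (QY (r := r))) Y η η| ≤ 40000 / 729 * ‖η‖ ^ 2

/-- the bounds of the profile function P -/
def PROF_data {q : ℕ} (P : E q → ℝ) : Prop :=
  ContDiff ℝ ∞ P ∧ ∀ X, 0 ≤ P X →
    P X ≤ 1301 / 1000 ∧
    (∀ ξ, |fderiv ℝ (fderiv ℝ P) X ξ ξ| ≤ 80 * ‖ξ‖ ^ 2) ∧
    (27 / 200) ^ 2 * ‖fderiv ℝ P X‖ ^ 2 + 9 / 5 * P X ≤ 64 / 25 ∧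
    (P X ≤ 21 / 50 → 11 * (11 / 20 - P X) ≤ ‖fderiv ℝ P X‖) ∧
    (77 / 100 ≤ P X → P X ≤ 113 / 100 → 41 / 10 ≤ ‖fderiv ℝ P X‖)

/-- the function Φ -/
noncomputable def Phi {q : ℕ} (r : ℕ) (P : E q → ℝ) (w : E q × E r) : ℝ :=
  1 / 100 * (1 - exp (-(27 / 10 * (P w.1 - QY w.2))))

/-- the data of the physical hypersurface |Z|² = Φ(X,Y) (n1, n2 are the components of the gradient) -/
def PHYS_data {q r : ℕ} (Φ : E q × E r → ℝ) : Prop :=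
  ContDiff ℝ ∞ Φ ∧ ∀ w, 0 ≤ Φ w → ‖w.2‖ ^ 2 ≤ 324 / 1000 ∧ Φ w ≤ 1 / 100 ∧
    ∃ (n1 : E q) (n2 : E r), (∀ ξ, fderiv ℝ Φ w ξ = inner ℝ n1 ξ.1 + inner ℝ n2 ξ.2) ∧
      0 < ‖n1‖ ^ 2 + ‖n2‖ ^ 2 + 4 * Φ w ∧
      ∀ (ξ : E q × E r) (t : ℝ), 0 ≤ t → (fderiv ℝ Φ w ξ) ^ 2 ≤ 4 * Φ w * t →
        |2 * t - fderiv ℝ (fderiv ℝ Φ) w ξ ξ| ≤
          21 * √(‖n1‖ ^ 2 + ‖n2‖ ^ 2 + 4 * Φ w) * (‖ξ.1‖ ^ 2 + ‖ξ.2‖ ^ 2 + t)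

/-- PHYS.

PROOF (with G_ELEM, G_QF).  z(X,Y) = 2.7 (P X - Q Y), Φ = (1 - e^(-z))/100; 0 ≤ Φ iff z ≥ 0.  At
w = (X,Y) with z ≥ 0 put e = e^(-z) in (0,1], s = sY Y, ω = s - 2 ≥ -1 (ω² = Q ≤ P ≤ 1.301, so
s ≤ 3.1407, s² - 1 ≤ 8.864, |Y|² = c (s²-1) ≤ 0.3232).
DΦ = (e/100) Dz, D²Φ(ξ,ξ) = (e/100)(D²z(ξ,ξ) - (Dz ξ)²), D²z(ξ,ξ) = 2.7 (D²P(ξ1,ξ1) - D²Q(ξ2,ξ2))
(no mixed terms).  n1 = (2.7 e/100) ∇P, n2 = -(2.7 e/100) ∇Q.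
G := (2.7/20)² |∇P|² + (2.7/20)² |∇Q|² = (27/200)² |∇P|² + 2 ω² (1 - 1/s²)
((27/200)²·80000/729 = 2), so |n1|² + |n2|² + 4Φ = (e² G + 1 - e)/25 (positive, see below).
y := (Dz ξ/20)² ≤ G V, V = |ξ1|² + |ξ2|² (Cauchy-Schwarz); the hypothesis (DΦ ξ)² ≤ 4Φ t is
(e/5)² y ≤ (1-e) t/25, i.e. e² y ≤ (1-e) t.  And
|2t - D²Φ(ξ,ξ)| ≤ 2t + 4 e y + (2.7 e/100)(80 |ξ1|² + (40000/729)|ξ2|²) ≤ 2t + 4ey + 2.2 e V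
(2.7·80/100 = 2.16, 2.7·400/729 = 1.482), while 21 √((e²G+1-e)/25) = 4.2 √(e²G+1-e):
so the claim is twice G_ELEM.  Hypotheses of G_ELEM:
G ≤ 64/25: 2ω²(1-1/s²) ≤ 1.8 P as ω² ≤ P, s² ≤ 10, and the third bound of PROF_data.
If e > 3/4 then G ≥ 121/400 = 0.3025: e^(-z) ≤ 1/(1+z) gives z < 1/3, P < ω² + 1/8.1 = ω² + 0.1235.
 Case ω ≥ 0.45: s ≥ 2.45, 2ω²(1 - 1/s²) ≥ 2·0.2025·(1 - 1/6.0025) ≥ 0.337.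
 Case -0.54 ≤ ω ≤ 0.45: P ≤ 0.2916 + 0.1235 ≤ 0.42, |∇P| ≥ 11(0.55 - P) ≥ 11 (0.4265 - ω²) > 0,
  s ≥ 1.46, 1 - 1/s² ≥ 0.53; G ≥ 2.205 (0.4265 - ω²)² + 1.06 ω² ≥ 0.32 (quadratic in ω²).
 Case -0.88 ≤ ω ≤ -0.54: 2 ω² (1 - 1/(2+ω)²) ≥ 0.3025: (with a = -ω in [0.54, 0.88]:
  2a²((2-a)² - 1) ≥ 0.3025 (2-a)²; at the end points 0.3096, 0.3141 for 2a²(1 - 1/(2-a)²)).
 Case -1 ≤ ω ≤ -0.88: P ≥ ω² ≥ 0.7744, P ≤ 1.1235, |∇P| ≥ 4.1, G ≥ (0.135·4.1)² = 0.3063.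
Positivity of e²G + 1 - e: if e > 3/4 because G > 0, else because 1 - e > 0. -/
def G_PHYS : Prop := ∀ (q r : ℕ) (P : E q → ℝ), PROF_data P → PHYS_data (Phi r P)

/-! ## The profile function -/

/-- the normalisation of u: P(l x) = ν u, 1 - P(l x) = μ (1 - u) -/
def NRM_data {q : ℕ} (u : E q → ℝ) (l : ℝ) (P ν μ : E q → ℝ) : Prop :=
  0 < l ∧ ContDiff ℝ ∞ ν ∧ ContDiff ℝ ∞ μ ∧ (∀ x, 0 ≤ u x → 0 < ν x ∧ 0 < μ x) ∧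
    (∀ x, P (l • x) = ν x * u x) ∧ ∀ x, 1 - P (l • x) = μ x * (1 - u x)

/-- E0 = exp(-11.5 l b0) -/
noncomputable def EE0 (l b0 : ℝ) : ℝ := exp (-(23 / 2 * (l * b0)))

/-- f = 1/(1 + (2/3) exp(-32 l b1)) -/
noncomputable def FF1 (l b1 : ℝ) : ℝ := (1 + 2 / 3 * exp (-(32 * (l * b1))))⁻¹

/-- the value of P at the point l x: (1 - E0)(11/20 + (3/4) f) + u E0 -/
noncomputable def PP (l u b0 b1 : ℝ) : ℝ :=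
  (1 - EE0 l b0) * (11 / 20 + 3 / 4 * FF1 l b1) + u * EE0 l b0

/-- the conditions at a point x of {u ≥ 0}, all constants times H² small; cases A (near u = 0),
B (near u = 1), C (elsewhere) -/
def PRC_data {q : ℕ} (u b0 b1 : E q → ℝ) (l H : ℝ) : Prop :=
  1 ≤ H ∧ 10 ^ 5 * H ^ 2 ≤ l ∧ ∀ x, 0 ≤ u x →
    (0 ≤ b0 x ∧ ‖fderiv ℝ b0 x‖ ≤ H ∧ ‖fderiv ℝ b1 x‖ ≤ H ∧ ‖fderiv ℝ u x‖ ≤ H ∧
      ‖fderiv ℝ (fderiv ℝ b0) x‖ ≤ H ∧ ‖fderiv ℝ (fderiv ℝ b1) x‖ ≤ H ∧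
      ‖fderiv ℝ (fderiv ℝ u) x‖ ≤ H) ∧
    10 ^ 5 * H ^ 2 * (u x * EE0 l (b0 x)) ≤ 1 ∧
    ((99 / 100 ≤ ‖fderiv ℝ b0 x‖ ^ 2 ∧ ‖fderiv ℝ b0 x‖ ^ 2 ≤ 101 / 100 ∧
        10 ^ 5 * H ^ 2 * FF1 l (b1 x) ≤ 1) ∨
      (99 / 100 ≤ ‖fderiv ℝ b1 x‖ ^ 2 ∧ ‖fderiv ℝ b1 x‖ ^ 2 ≤ 101 / 100 ∧
        10 ^ 5 * H ^ 2 * EE0 l (b0 x) ≤ 1) ∨
      (10 ^ 5 * H ^ 2 * EE0 l (b0 x) ≤ 1 ∧
        (10 ^ 5 * H ^ 2 * FF1 l (b1 x) ≤ 1 ∨ 10 ^ 5 * H ^ 2 * (1 - FF1 l (b1 x)) ≤ 1)))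

/-- PRC.  The functions b0, b1 and the choice of l.

PROOF.  N0 = √(‖Du‖² + u²), N1 = √(‖Du‖² + (u-1)²) are positive (Du ≠ 0 where u = 0, 1) and smooth
(see `Pool.Agent.Helper85.BC.N2_smooth`, `N2_pos`: N0² = N2 u, N1² = N2 (u - 1)); b0 = u/N0,
b1 = (u-1)/N1.  Where u = 0: Db0 = Du/N0 has norm 1 (the same computation as `hu0` in
Pool/Agent/Helper85/BC/CAP.lean); where u = 1: ‖Db1‖ = 1.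
K = {u ≥ 0} is compact; H ≥ 1 bounds on K the six norms and N0.
There is d > 0 with, for all x in K:  b0 ≤ d ⟹ |‖Db0‖² - 1| ≤ 1/100;  |b1| ≤ d ⟹ |‖Db1‖² - 1| ≤ 1/100;
b0 > d or b1 < -d (the function max(b0, -b1) is positive on K: if b0 = 0 then u = 0 and -b1 > 0; so it
has a positive minimum).  (Compactness as in CAP.lean.)
Choose l ≥ 10^5 H³ + 1 with 10^5 H² · 2 · exp(-11.5 l d) ≤ 1 (e.g. exp(-t) ≤ 1/t).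
u E0 = N0 b0 exp(-11.5 l b0) ≤ H/(11.5 l) (t e^(-t) ≤ 1), so 10^5 H² u E0 ≤ 1.
At x in K.  If b0 ≤ d: then b1 < -d, FF1 ≤ (3/2) exp(-32 l d) ≤ ..: case A.  Else b0 > d,
E0 ≤ exp(-11.5 l d).  If |b1| ≤ d: case B.  Else case C: b1 < -d gives FF1 ≤ (3/2) exp(-32 l d),
b1 > d gives 1 - FF1 ≤ (2/3) exp(-32 l d).
(Where E0, b0 are evaluated: EE0 l (b0 x).) -/
def G_PRC : Prop := ∀ (q : ℕ) (u : E q → ℝ), ContDiff ℝ ∞ u → IsCompact {x | 0 ≤ u x} →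
  (∀ x, u x = 0 ∨ u x = 1 → fderiv ℝ u x ≠ 0) →
  ∃ (b0 b1 N0 N1 : E q → ℝ) (l H : ℝ), ContDiff ℝ ∞ b0 ∧ ContDiff ℝ ∞ b1 ∧ ContDiff ℝ ∞ N0 ∧
    ContDiff ℝ ∞ N1 ∧ (∀ x, 0 < N0 x) ∧ (∀ x, 0 < N1 x) ∧ (∀ x, b0 x * N0 x = u x) ∧
    (∀ x, b1 x * N1 x = u x - 1) ∧ PRC_data u b0 b1 l H

/-- PRD.  Derivatives of X ↦ PP l (u x) (b0 x) (b1 x), x = X/l.

PROOF.  The chain rule; D_X of a function F(X/l) is l⁻¹ (DF)(X/l).  With e = EE0 l (b0 x),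
f = FF1 l (b1 x): De = -(23/2) e Db0 (in X), Df = 32 f (1-f) Db1 (in X; f' = (2/3)·32 E1 f² and
(2/3) E1 f = 1 - f), Du = l⁻¹ Du.  P = (1-e)(11/20 + 3/4 f) + u e.  For the second derivative apply
the same rules once more to the formula of the first derivative (with vector values in the dual), or
compute the second derivative of t ↦ P(X + tξ) at t = 0 (`Pool.Agent.Helper50.BC.comp2` with the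
curve t ↦ X + tξ). -/
def G_PRD : Prop := ∀ (q : ℕ) (u b0 b1 : E q → ℝ) (l : ℝ), 0 < l → ContDiff ℝ ∞ u →
  ContDiff ℝ ∞ b0 → ContDiff ℝ ∞ b1 →
  ContDiff ℝ ∞ (fun X => PP l (u (l⁻¹ • X)) (b0 (l⁻¹ • X)) (b1 (l⁻¹ • X))) ∧
  ∀ X, ∀ x, x = l⁻¹ • X → ∀ e f, e = EE0 l (b0 x) → f = FF1 l (b1 x) →
    fderiv ℝ (fun X => PP l (u (l⁻¹ • X)) (b0 (l⁻¹ • X)) (b1 (l⁻¹ • X))) X =
      (24 * (1 - e) * (f * (1 - f))) • fderiv ℝ b1 x +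
      (23 / 2 * e * (11 / 20 + 3 / 4 * f) - 23 / 2 * (u x * e)) • fderiv ℝ b0 x +
      (l⁻¹ * e) • fderiv ℝ u x ∧
    ∀ ξ, fderiv ℝ (fderiv ℝ (fun X => PP l (u (l⁻¹ • X)) (b0 (l⁻¹ • X)) (b1 (l⁻¹ • X)))) X ξ ξ =
      24 * (1 - e) * (f * (1 - f)) * (32 * (1 - 2 * f) * (fderiv ℝ b1 x ξ) ^ 2 +
        l⁻¹ * fderiv ℝ (fderiv ℝ b1) x ξ ξ) +
      552 * e * (f * (1 - f)) * (fderiv ℝ b0 x ξ * fderiv ℝ b1 x ξ) -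
      (11 / 20 + 3 / 4 * f - u x) * (529 / 4 * e * (fderiv ℝ b0 x ξ) ^ 2 -
        23 / 2 * e * (l⁻¹ * fderiv ℝ (fderiv ℝ b0) x ξ ξ)) +
      l⁻¹ ^ 2 * e * fderiv ℝ (fderiv ℝ u) x ξ ξ -
      23 * l⁻¹ * e * (fderiv ℝ b0 x ξ * fderiv ℝ u x ξ)

/-- PRS.  The inequalities.  (D is the dual space, x0 = Db0, x1 = Db1, xu = Du, uu = u, i = l⁻¹;
a0, a1, au the values at ξ, c0, c1, cu the second derivatives at (ξ,ξ), T = ‖ξ‖.)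

PROOF.  Put δ = 10^(-5) H^(-2) (so δ ≤ 10^(-5), δ H² ≤ 10^(-5)), U = uu e; i, U ≤ δ and, in the
cases, f ≤ δ, e ≤ δ or 1 - f ≤ δ.  P = (1-e)(11/20 + 3/4 f) + U ≤ 1.3 + δ.
Case A (f ≤ δ): |P - 11/20 (1-e)| ≤ 2δ, ‖DP - (23/2)(11/20) e x0‖ ≤ 24 δ H + (23/2)(3/4) δ H +
(23/2) δ H + δ H ≤ 50 δ H ≤ 0.0005, and 0.9949 ≤ ‖x0‖ ≤ 1.005; so ‖DP‖ ≤ 6.36, ‖DP‖ ≥
11.44·(0.55 e) - 0.0005, 0.55 e ≥ 0.55 - P - 0.00002: all claims follow (if P ≤ 0.42,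
11.44 (0.55 - P) - 0.001 ≥ 11 (0.55 - P) as 0.44·0.13 = 0.057; P < 0.77).
Second derivative: the main term is 0.55·(529/4)·e·a0² ≤ 0.55·132.25·1.01 T² = 73.5 T²; the others are
≤ (24·32 + 552 + 132.25·2 + 100) δ H² T² ≤ 0.1 T².
Case B (e ≤ δ): |P - (0.55 + 0.75 f)| ≤ 3δ, ‖DP - 24 f(1-f) x1‖ ≤ 50 δ H ≤ 0.0005; so
‖DP‖ ≤ 24 f(1-f)·1.005 + 0.0005: (27/200)²‖DP‖² + 1.8 P ≤ 10.61 (f(1-f))² + 0.01 + 0.99 + 1.35 f ≤ 2.56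
(the maximum of 10.61 (f - f²)² + 1.35 f on [0,1] is below 1.44);
P > 0.42; if 0.77 ≤ P ≤ 1.13 then f in [0.293, 0.774], f(1-f) ≥ 0.174, ‖DP‖ ≥ 24·0.174·0.9949 -
0.0005 ≥ 4.1.  Second derivative: the main term is 24·32·f(1-f)|1-2f| a1² ≤ 768·0.0963·1.01 T² ≤ 74.8 T²
((f(1-f)(1-2f))² = (1/4 - g²)²·4g², g = f - 1/2, is ≤ 1/108 by AM-GM), the others ≤ 0.1 T².
Case C (e ≤ δ and f(1-f) ≤ δ): ‖DP‖ ≤ 100 δ H, second derivative ≤ T²; if f ≤ δ then P is within 3δ of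
0.55, if 1 - f ≤ δ then 1.29 ≤ P. -/
def G_PRS : Prop := ∀ (D : Type) [NormedAddCommGroup D] [NormedSpace ℝ D] (x0 x1 xu : D)
  (e f uu i H : ℝ), 1 ≤ H → 0 < e → e ≤ 1 → 0 < f → f < 1 → 0 ≤ uu →
  0 < i → 10 ^ 5 * H ^ 2 * i ≤ 1 → 10 ^ 5 * H ^ 2 * (uu * e) ≤ 1 →
  ‖x0‖ ≤ H → ‖x1‖ ≤ H → ‖xu‖ ≤ H →
  ((99 / 100 ≤ ‖x0‖ ^ 2 ∧ ‖x0‖ ^ 2 ≤ 101 / 100 ∧ 10 ^ 5 * H ^ 2 * f ≤ 1) ∨
    (99 / 100 ≤ ‖x1‖ ^ 2 ∧ ‖x1‖ ^ 2 ≤ 101 / 100 ∧ 10 ^ 5 * H ^ 2 * e ≤ 1) ∨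
    (10 ^ 5 * H ^ 2 * e ≤ 1 ∧ (10 ^ 5 * H ^ 2 * f ≤ 1 ∨ 10 ^ 5 * H ^ 2 * (1 - f) ≤ 1))) →
  ∀ P, P = (1 - e) * (11 / 20 + 3 / 4 * f) + uu * e →
  ∀ DP : D, DP = (24 * (1 - e) * (f * (1 - f))) • x1 +
      (23 / 2 * e * (11 / 20 + 3 / 4 * f) - 23 / 2 * (uu * e)) • x0 + (i * e) • xu →
  P ≤ 1301 / 1000 ∧
  (27 / 200) ^ 2 * ‖DP‖ ^ 2 + 9 / 5 * P ≤ 64 / 25 ∧
  (P ≤ 21 / 50 → 11 * (11 / 20 - P) ≤ ‖DP‖) ∧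
  (77 / 100 ≤ P → P ≤ 113 / 100 → 41 / 10 ≤ ‖DP‖) ∧
  ∀ (T a0 a1 au c0 c1 cu : ℝ), 0 ≤ T → |a0| ≤ ‖x0‖ * T → |a1| ≤ ‖x1‖ * T → |au| ≤ ‖xu‖ * T →
    |c0| ≤ H * T ^ 2 → |c1| ≤ H * T ^ 2 → |cu| ≤ H * T ^ 2 →
    |24 * (1 - e) * (f * (1 - f)) * (32 * (1 - 2 * f) * a1 ^ 2 + i * c1) +
      552 * e * (f * (1 - f)) * (a0 * a1) -
      (11 / 20 + 3 / 4 * f - uu) * (529 / 4 * e * a0 ^ 2 - 23 / 2 * e * (i * c0)) +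
      i ^ 2 * e * cu - 23 * i * e * (a0 * au)| ≤ 80 * T ^ 2

/-- PROF.  The profile function and the normalisation.

PROOF (with χ from `G_CHI`, t χ(t) = 1 - exp(-t), and G_PRC, G_PRD, G_PRS).  b0, b1, N0, N1, l, H from
G_PRC.  P(X) = PP l (u x) (b0 x) (b1 x), x = X/l.  PROF_data: P(X) ≥ 0 implies u(x) ≥ 0: if u(x) < 0
then b0 < 0, 1 - E0 < 0, so P < 0.  Then apply G_PRS (D = E q →L[ℝ] ℝ, i = l⁻¹, e = E0 in (0,1] as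
b0 ≥ 0) with the formulas of G_PRD.
ν = (23/2) l χ((23/2) l b0)/N0 · (11/20 + (3/4) f) + E0: as u = b0 N0,
(1 - E0) = (23/2) l b0 χ((23/2) l b0).  ν > 0 everywhere.
μ = (1 - E0) · (48/5) l χ(32 l b1)/(N1 (1 + (2/3) E1)) + E0, E1 = exp(-32 l b1): since 1 - P =
(1 - E0)(9/20 - (3/4) f) + E0 (1 - u), 9/20 - (3/4) f = (3/10)(E1 - 1)/(1 + (2/3)E1) and
1 - E1 = 32 l b1 χ(32 l b1), b1 = (u-1)/N1.  μ > 0 if u ≥ 0 (then E0 ≤ 1). -/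
def G_PROF : Prop := ∀ (q : ℕ) (u : E q → ℝ), ContDiff ℝ ∞ u → IsCompact {x | 0 ≤ u x} →
  (∀ x, u x = 0 ∨ u x = 1 → fderiv ℝ u x ≠ 0) →
  ∃ (l : ℝ) (P ν μ : E q → ℝ), PROF_data P ∧ NRM_data u l P ν μ

/-! ## The diffeomorphism -/

/-- MBA.  Algebra of the Moebius map t = aτ/(1+kτ), a = μ/m, k = (μ-m²)/(m(1+m)) (m² = ν).

PROOF.  (1) With q = 1 + kτ: a - k = (μ+m)/(1+m); m²u q² - ((a-k)τ - 1)² is a polynomial of degree 2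
in τ; the constant coefficient is m²u - 1 = -μ(1-u); the coefficient of τ is 2(m²uk + a - k) = 2μ
because k(1 - m²u) = (μ-m²)(1-m²u)/(m(1+m)) = μ(1-m)/m (using m²u = 1-μ(1-u)); the coefficient of τ²
is m²u k² - (a-k)² = -μ (((μ+m)² - u(μ-m²)²)/(1+m)² = μ, u (m²-μ) = 1-μ).  So it is
μ(-(1-u) + 2τ - τ²) = μ(u - (τ-1)²).  (field_simp; linear_combination (..) * h.)
(2) m(1+m)(1+kτ) = m + m²(1-τ) + μτ.  If τ ≤ 1 it is positive.  Let τ > 1, so u ≥ (τ-1)² > 0,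
σ = √u ≥ τ - 1.  If m²u ≤ 1: m²(τ-1) ≤ m·(mσ) ≤ m, so it is ≥ μτ > 0.  If m²u > 1: then u > 1
(else 1 < m²u = 1 - μ(1-u) ≤ 1) and multiplying by u - 1 > 0, with μ(u-1) = m²u - 1, it becomes
m²(u - 1 + τ) + m(u-1) - τ = m²(u-1) + m(u-1) + τ(m²-1); this is positive if m ≥ 1; if m < 1 it is
≥ (m²+m)(σ²-1) + (1+σ)(m²-1) = (1+σ)(1+m)(mσ-1) > 0. -/
def G_MBA : Prop := ∀ m μ u τ : ℝ, 0 < m → 0 < μ → m ^ 2 * u = 1 - μ * (1 - u) →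
  (1 + (μ - m ^ 2) / (m * (1 + m)) * τ ≠ 0 →
    m ^ 2 * u - (μ / m * τ / (1 + (μ - m ^ 2) / (m * (1 + m)) * τ) - 1) ^ 2 =
      μ * (u - (τ - 1) ^ 2) / (1 + (μ - m ^ 2) / (m * (1 + m)) * τ) ^ 2) ∧
  (0 ≤ τ → (τ - 1) ^ 2 ≤ u → 0 < 1 + (μ - m ^ 2) / (m * (1 + m)) * τ)

/-- the function u(x) - (|y|² - 1)² -/
noncomputable def HH {q r : ℕ} (u : E q → ℝ) (w : E q × E r) : ℝ := u w.1 - (‖w.2‖ ^ 2 - 1) ^ 2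

/-- the data of the diffeomorphism on the open set O -/
def MOB_data {q r : ℕ} (u : E q → ℝ) (Φ : E q × E r → ℝ) (O : Set (E q × E r))
    (θ : E q × E r → E q × E r) (g : E q × E r → ℝ) : Prop :=
  IsOpen O ∧ (∀ w, 0 ≤ HH u w → w ∈ O) ∧ ContDiffOn ℝ ∞ θ O ∧ ContDiffOn ℝ ∞ g O ∧
    ∀ w ∈ O, 0 < g w ∧ Function.Surjective (fderiv ℝ θ w) ∧ Φ (θ w) = g w ^ 2 * HH u w

/-- MOB.

PROOF (with χ from G_CHI and G_MBA).  m = √ν, k = (μ - m²)/(m(1+m)), a = μ/m as functions of x (smooth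
where ν, μ > 0), τ = |y|².  O = {(x,y) : ν(x) > 0, μ(x) > 0, 1 + k(x)τ > 0}: open (ν, μ continuous;
on the open set ν > 0 the function 1 + kτ is continuous; or write the last condition without
denominators: m(1+m) + (μ - m²)τ > 0 with m = √ν).  If HH u w ≥ 0 then u(x) ≥ (τ-1)² ≥ 0, so ν, μ > 0 and
by G_MBA (2) (m²u = νu = P(lx) = 1 - μ(1-u)) w ∈ O.
On O: q = 1 + kτ > 0, t = aτ/q ≥ 0, A = √(c (a/q)(2+t)) > 0, c = 729/20000, θ(x,y) = (l x, A y).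
|A y|² = c t(2+t), so sY (A y) = √(1 + t(2+t)) = 1 + t, QY(A y) = (t-1)², and with
z = (27/10)(P(lx) - (t-1)²) = (27/10) μ (u - (τ-1)²)/q² (G_MBA (1), P(lx) = m²u), Φ(θ w) =
(1 - e^(-z))/100 = z χ(z)/100 = g² (u - (τ-1)²), g = √(27 χ(z) μ/1000)/q.
Surjectivity of the differential at w: it is injective (then finite dimension:
`LinearMap.injective_iff_surjective`): if dθ(ξ,η) = 0 then l ξ = 0, ξ = 0; and d|Ay|² (0,η) =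
2<Ay, 0> = 0, where |Ay|² = c t(2+t), t = aτ/(1+kτ): the derivative is c(2+2t)(a/q²)·2<y,η>, so
<y,η> = 0; then the derivative of A (a function of x and τ) in the direction (0,η) is 0, so
0 = dθ(0,η)_2 = A η and η = 0. -/
def G_MOB : Prop := ∀ (q r : ℕ) (u : E q → ℝ) (l : ℝ) (P ν μ : E q → ℝ), ContDiff ℝ ∞ u →
  ContDiff ℝ ∞ P → NRM_data u l P ν μ →
  ∃ (O : Set (E q × E r)) (θ : E q × E r → E q × E r) (g : E q × E r → ℝ),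
    MOB_data u (Phi r P) O θ g

/-! ## The thick maps -/

/-- the bounds of a thick map on |z| ≤ 1/10 -/
def THK {q j n : ℕ} (Ψ : E q × E j → E n) (σ a B b : ℝ) : Prop :=
  ContDiff ℝ ∞ Ψ ∧ ∀ p, ‖p.2‖ ≤ 1 / 10 →
    ‖Ψ p‖ ^ 2 ≤ σ ∧
    (∀ ξ, a * (‖ξ.1‖ ^ 2 + ‖ξ.2‖ ^ 2) ≤ ‖fderiv ℝ Ψ p ξ‖ ^ 2) ∧
    (∀ ξ, ‖fderiv ℝ Ψ p ξ‖ ^ 2 ≤ B ^ 2 * (‖ξ.1‖ ^ 2 + ‖ξ.2‖ ^ 2)) ∧
    (∀ ξ, ‖fderiv ℝ (fderiv ℝ Ψ) p ξ ξ‖ ≤ b * (‖ξ.1‖ ^ 2 + ‖ξ.2‖ ^ 2))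

/-- CIR.  The product of q circles.

PROOF.  ω = 10/3.  Ψ(x, v) has, for i < q, the coordinates (2/5 + v_i) cos(ω x_i) (in place i) and
(2/5 + v_i) sin(ω x_i) (in place j + i), and the coordinate v_i in place i for q ≤ i < j (the target
E (q + j): use e.g. `Fin.addCases`/a bijection; or take an isometry J from the coordinates, see
the map J in Pool/Agent/Helper30/BC/EMP.lean: Ψ(x,v) = J(first, second) with first in E j of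
coordinates (2/5 + v_i) cos(ω x_i) or v_i, second in E q of coordinates (2/5 + v_i) sin(ω x_i)).
|v_i| ≤ 1/10.  ‖Ψ‖² = sum over i < q of (2/5 + v_i)² + sum over i ≥ q of v_i² = 4q/25 + (4/5) Σ v_i + |v|²
≤ 4q/25 + (4/5)√q/10 + 1/100 ≤ 4.8 + 0.4382 + 0.01 ≤ 5.25 for q ≤ 30.
dΨ(τ,ζ): ‖dΨ‖² = Σ_{i<q} ((ω(2/5+v_i)τ_i)² + ζ_i²) + Σ_{i≥q} ζ_i² and 1 ≤ ω(2/5+v_i) ≤ 5/3.
d²Ψ((τ,ζ),(τ,ζ)): ‖d²Ψ‖² = Σ_{i<q} ((ω²(2/5+v_i)τ_i²)² + (2ωτ_iζ_i)²) ≤ (50/9)²(Στ_i²)² +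
(400/9)(Στ_i²)(Σζ_i²) ≤ (50/9)²(|τ|²+|ζ|²)² (ω²/2 = 50/9). -/
def G_CIR : Prop := ∀ q j : ℕ, q ≤ j → q ≤ 30 →
  ∃ Ψ : E q × E j → E (q + j), THK Ψ (21 / 4) 1 (5 / 3) (50 / 9)

/-- the bounds of a thick map with the additional variables y -/
def THK3 {q r j n : ℕ} (Ψ : E q × E r × E j → E n) (S a B b : ℝ) : Prop :=
  ContDiff ℝ ∞ Ψ ∧ ∀ p, ‖p.2.2‖ ≤ 1 / 10 → ‖p.2.1‖ ^ 2 ≤ 324 / 1000 →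
    ‖Ψ p‖ ≤ S ∧
    (∀ ξ, a * (‖ξ.1‖ ^ 2 + ‖ξ.2.1‖ ^ 2 + ‖ξ.2.2‖ ^ 2) ≤ ‖fderiv ℝ Ψ p ξ‖ ^ 2) ∧
    (∀ ξ, ‖fderiv ℝ Ψ p ξ‖ ^ 2 ≤ B ^ 2 * (‖ξ.1‖ ^ 2 + ‖ξ.2.1‖ ^ 2 + ‖ξ.2.2‖ ^ 2)) ∧
    (∀ ξ, ‖fderiv ℝ (fderiv ℝ Ψ) p ξ ξ‖ ≤ b * (‖ξ.1‖ ^ 2 + ‖ξ.2.1‖ ^ 2 + ‖ξ.2.2‖ ^ 2))

/-- LIFT.

PROOF.  Ψ'(x, y, v) = J(Ψ(x,v), √a • y), J : E (q+j) × E r →L E (q+r+j) linear with
‖J(c,d)‖² = ‖c‖² + ‖d‖² (as the map J in Pool/Agent/Helper30/BC/EMP.lean, with target E n for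
n = (q+j)+r, then a cast/reindexing to E (q+r+j)).  ‖Ψ'‖² = ‖Ψ‖² + a|y|² ≤ σ + 0.324 a ≤ S²;
dΨ'(ξ) = J(dΨ(ξ1,ξ3), √a ξ2); d²Ψ'(ξ,ξ) = J(d²Ψ((ξ1,ξ3),(ξ1,ξ3)), 0). -/
def G_LIFT : Prop := ∀ (q r j : ℕ) (Ψ : E q × E j → E (q + j)) (σ a B b S : ℝ), THK Ψ σ a B b →
  0 < a → a ≤ B ^ 2 → 0 ≤ b → 0 ≤ S → σ + 324 / 1000 * a ≤ S ^ 2 →
  ∃ Ψ' : E q × E r × E j → E (q + r + j), THK3 Ψ' S a B b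

/-! ## Assembly -/

/-- ABS.  The curvature bound at one point.

PROOF.  (As in Pool/Agent/Helper50/BC/ASM.lean; `comp2` there.)  Γ = Ψ ∘ γ.  (G∘γ)'' = 0 at t gives
DG(γ'') = -D²G(γ',γ').  μ = DG(γ'')/ν2, so |μ| √ν2 ≤ K A; τ = γ'' - μ N has DG τ = 0, so <Γ'', DΨ τ> = 0.
Γ'' = D²Ψ(γ',γ') + DΨ τ + μ DΨ N; pairing with Γ'': ‖Γ''‖² ≤ ‖Γ''‖ (b A + K A B), so
‖Γ''‖ ≤ (b + KB) A ≤ (b + KB) S²/a ≤ 100 S. -/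
def G_ABS : Prop := ∀ (n : ℕ) (V : Type) [NormedAddCommGroup V] [NormedSpace ℝ V] (Ψ : V → E n)
  (G : V → ℝ) (γ : ℝ → V) (t : ℝ) (N : V) (ν2 A S a B b K : ℝ),
  ContDiff ℝ ∞ Ψ → ContDiff ℝ ∞ G → ContDiffAt ℝ 2 γ t → (∀ᶠ s in 𝓝 t, G (γ s) = 0) →
  0 < ν2 → fderiv ℝ G (γ t) N = ν2 → 0 ≤ A → 0 < S → 0 < a → 0 ≤ B → 0 ≤ b → 0 ≤ K →
  |fderiv ℝ (fderiv ℝ G) (γ t) (deriv γ t) (deriv γ t)| ≤ K * √ν2 * A →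
  ‖fderiv ℝ Ψ (γ t) N‖ ≤ B * √ν2 →
  ‖fderiv ℝ (fderiv ℝ Ψ) (γ t) (deriv γ t) (deriv γ t)‖ ≤ b * A →
  a * A ≤ ‖fderiv ℝ Ψ (γ t) (deriv γ t)‖ ^ 2 →
  ‖fderiv ℝ Ψ (γ t) (deriv γ t)‖ = S →
  (∀ τ, fderiv ℝ G (γ t) τ = 0 →
    inner ℝ (deriv (deriv (fun s => Ψ (γ s))) t) (fderiv ℝ Ψ (γ t) τ) = 0) →
  S * (b + K * B) ≤ 100 * a →
  ‖deriv (deriv (fun s => Ψ (γ s))) t‖ ≤ 100 * S

/-- the hypersurface X_u -/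
def XX {q : ℕ} (r j : ℕ) (u : E q → ℝ) : Set (E q × E r × E j) :=
  {p | ‖p.2.2‖ ^ 2 + (‖p.2.1‖ ^ 2 - 1) ^ 2 = u p.1}

/-- ξ is a tangent vector of X_u at p -/
def TT {q r j : ℕ} (u : E q → ℝ) (p ξ : E q × E r × E j) : Prop :=
  2 * inner ℝ p.2.2 ξ.2.2 + 4 * (‖p.2.1‖ ^ 2 - 1) * inner ℝ p.2.1 ξ.2.1 = fderiv ℝ u p.1 ξ.1

/-- the conclusion: f is smooth on an open set containing X_u, maps X_u to the unit ball, is an immersion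
on X_u, and has curvature at most 100 there -/
def GOOD {q r j n : ℕ} (u : E q → ℝ) (f : E q × E r × E j → E n) : Prop :=
  (∃ U : Set (E q × E r × E j), IsOpen U ∧ XX r j u ⊆ U ∧ ContDiffOn ℝ ∞ f U) ∧
  (∀ p ∈ XX r j u, ‖f p‖ ≤ 1) ∧
  (∀ p ∈ XX r j u, ∀ ξ, TT u p ξ → fderiv ℝ f p ξ = 0 → ξ = 0) ∧
  ∀ (c : ℝ → E q × E r × E j) (t : ℝ), ContDiffAt ℝ 2 c t → (∀ᶠ s in 𝓝 t, c s ∈ XX r j u) →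
    ‖deriv (fun s => f (c s)) t‖ = 1 →
    (∀ ξ, TT u (c t) ξ → inner ℝ (deriv (deriv (fun s => f (c s))) t) (fderiv ℝ f (c t) ξ) = 0) →
    ‖deriv (deriv (fun s => f (c s))) t‖ ≤ 100

/-- ASM.  The assembly.

PROOF (with G_ABS).  Θ(x,y,v) = ((θ(x,y)).1, (θ(x,y)).2, g(x,y) • v), smooth on the open set
{p : (p.1, p.2.1) ∈ O}; f = (1/S) • Ψ ∘ Θ.  For p ∈ X_u: HH u (x,y) = |v|² ≥ 0, so (x,y) ∈ O, and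
|gv|² = g² HH = Φ(θ(x,y)) ≥ 0; so (PHYS_data) |gv| ≤ 1/10, |θ_2|² ≤ 324/1000: ‖f p‖ ≤ 1.
dΘ(ξ1,ξ2,ζ) = (dθ(ξ1,ξ2), g ζ + (dg(ξ1,ξ2)) v); dθ is surjective, hence injective (finite dimension),
so dΘ is injective, and dΨ is injective by the lower bound: immersion.
Curvature: G(X,Y,Z) = |Z|² - Φ(X,Y), γ = Θ ∘ c; G(γ) = 0 near t.  At (X,Y,Z) = γ(t), n1, n2 of PHYS_data:
N = (-n1, -n2, 2Z), ν2 = |n1|² + |n2|² + 4Φ = DG(N) (as |Z|² = Φ).  A = |γ'|² (sum of the squares of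
the norms of the three components).  DG(γ') = 0 gives DΦ(γ1',γ2') = 2<Z,γ3'>, so
(DΦ)² ≤ 4Φ|γ3'|², and |D²G(γ',γ')| = |2|γ3'|² - D²Φ| ≤ 21 √ν2 A.  The bounds of Ψ at γ(t) (for dΨ(N):
B² (|n1|²+|n2|²+4|Z|²) = B² ν2).  Orthogonality: let DG(τ) = 0, τ = (τ1,τ2,τ3).  Choose (ξ1,ξ2) with
dθ(ξ1,ξ2) = (τ1,τ2) and ζ = (τ3 - (dg(ξ1,ξ2)) v)/g; then dΘ(ξ1,ξ2,ζ) = τ and TT u (c t) (ξ1,ξ2,ζ):
differentiating Φ∘θ = g² HH u on O: DΦ(τ1,τ2) = 2 g dg(..) HH + g² dHH(ξ1,ξ2), and DΦ(τ1,τ2) = 2<Z,τ3> =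
2<gv, gζ + dg(..)v> = 2g²<v,ζ> + 2 g dg(..)|v|²; |v|² = HH, so 2<v,ζ> = dHH(ξ1,ξ2) =
Du ξ1 - 4(|y|²-1)<y,ξ2>.  (f∘c)'' = (1/S) Γ'' etc.; ‖(f∘c)'‖ = 1 is ‖dΨ γ'‖ = S. -/
def G_ASM : Prop := ∀ (q r j : ℕ) (u : E q → ℝ) (Φ : E q × E r → ℝ) (O : Set (E q × E r))
  (θ : E q × E r → E q × E r) (g : E q × E r → ℝ) (n : ℕ) (Ψ : E q × E r × E j → E n)
  (S a B b : ℝ), ContDiff ℝ ∞ u → PHYS_data Φ → MOB_data u Φ O θ g → THK3 Ψ S a B b → 0 < S → 0 < a →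
  0 ≤ B → 0 ≤ b → S * (b + 21 * B) ≤ 100 * a →
  ∃ f : E q × E r × E j → E n, GOOD u f

/-- REG.

PROOF.  Closed (continuity).  Bounded: on X_u u(x) ≥ 0, so x is in the compact set K = {u ≥ 0}; u ≤ M on K;
|v|² ≤ M, (|y|²-1)² ≤ M.  Regular: if v ≠ 0 take ξ = (0,0,v).  If v = 0 and y ≠ 0, |y|² ≠ 1 take
ξ = (0,y,0).  If v = 0 and y = 0 then u(x) = 1; if v = 0 and |y|² = 1 then u(x) = 0; in both cases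
Du(x) ≠ 0: take ξ = (ξ1,0,0) with Du(x) ξ1 ≠ 0. -/
def G_REG : Prop := ∀ (q r j : ℕ) (u : E q → ℝ), ContDiff ℝ ∞ u → IsCompact {x | 0 ≤ u x} →
  (∀ x, u x = 0 ∨ u x = 1 → fderiv ℝ u x ≠ 0) →
  IsCompact (XX r j u) ∧ ∀ p ∈ XX r j u, ∃ ξ, ¬ TT u p ξ

end Pool.Agent.Helper10.BD
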