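import Pool.Agent.Helper10.BD.Goals

/-!
# Project BD: `G_PROF`
-/

open scoped ContDiff
open Real Filter Topology

namespace Pool.Agent.Helper10.BD.PROF

open Pool.Agent.Helper50.BC (E G_CHI)

theorem t (hc : G_CHI) (hC : G_PRC) (hD : G_PRD) (hS : G_PRS) : G_PROF := by
  intro q u hu hK hr
  obtain ⟨χ, hχs, hχp, hχ⟩ := hc
  obtain ⟨b0, b1, N0, N1, l, H, hb0, hb1, hN0, hN1, hN0p, hN1p, hbN0, hbN1, hH, hHl, hdat⟩ :=
    hC q u hu hK hr
  have hl : 0 < l := by nlinarith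
  obtain ⟨hPs, hPd⟩ := hD q u b0 b1 l hl hu hb0 hb1
  set P : E q → ℝ := fun X => PP l (u (l⁻¹ • X)) (b0 (l⁻¹ • X)) (b1 (l⁻¹ • X)) with hP
  -- sign of b0
  have hsb0 : ∀ x, u x < 0 → b0 x < 0 := by
    intro x hx
    by_contra hcon
    have : 0 ≤ b0 x * N0 x := mul_nonneg (not_lt.1 hcon) (hN0p x).le
    rw [hbN0] at this
    linarith
  have hEpos : ∀ x, 0 < EE0 l (b0 x) := fun x => exp_pos _
  have hFpos : ∀ x, 0 < FF1 l (b1 x) := by
    intro x; unfold FF1; positivity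
  have hFlt : ∀ x, FF1 l (b1 x) < 1 := by
    intro x; unfold FF1
    have : 0 < exp (-(32 * (l * b1 x))) := exp_pos _
    apply inv_lt_one_of_one_lt₀
    linarith
  -- P ≥ 0 implies u ≥ 0
  have hPu : ∀ X, 0 ≤ P X → 0 ≤ u (l⁻¹ • X) := by
    intro X hX
    by_contra hcon
    have hcon' := not_le.1 hcon
    have h1 := hsb0 _ hcon'
    have h2 : 1 < EE0 l (b0 (l⁻¹ • X)) := by
      unfold EE0
      rw [Real.one_lt_exp_iff]
      have : l * b0 (l⁻¹ • X) < 0 := mul_neg_of_pos_of_neg hl h1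
      linarith
    have h3 : P X < 0 := by
      show (1 - EE0 l (b0 (l⁻¹ • X))) * (11 / 20 + 3 / 4 * FF1 l (b1 (l⁻¹ • X))) +
        u (l⁻¹ • X) * EE0 l (b0 (l⁻¹ • X)) < 0
      have h4 := hFpos (l⁻¹ • X)
      have h5 : (1 - EE0 l (b0 (l⁻¹ • X))) * (11 / 20 + 3 / 4 * FF1 l (b1 (l⁻¹ • X))) < 0 :=
        mul_neg_of_neg_of_pos (by linarith) (by linarith)
      have h6 : u (l⁻¹ • X) * EE0 l (b0 (l⁻¹ • X)) < 0 :=
        mul_neg_of_neg_of_pos hcon' (hEpos _)
      linarith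
    linarith
  refine ⟨l, P,
    fun x => 23 / 2 * (l * χ (23 / 2 * (l * b0 x))) / N0 x * (11 / 20 + 3 / 4 * FF1 l (b1 x)) +
      EE0 l (b0 x),
    fun x => (1 - EE0 l (b0 x)) * (48 / 5 * (l * χ (32 * (l * b1 x))) /
      (N1 x * (1 + 2 / 3 * exp (-(32 * (l * b1 x)))))) + EE0 l (b0 x), ⟨hPs, ?_⟩, hl, ?_, ?_, ?_, ?_, ?_⟩
  · intro X hX
    set x : E q := l⁻¹ • X with hx
    have hux : 0 ≤ u x := hPu X hX
    obtain ⟨⟨hb0x, g1, g2, g3, g4, g5, g6⟩, hU, hcases⟩ := hdat x hux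
    obtain ⟨hd1, hd2⟩ := hPd X x hx _ _ rfl rfl
    have he1 : EE0 l (b0 x) ≤ 1 := by
      unfold EE0
      rw [Real.exp_le_one_iff]
      have : 0 ≤ l * b0 x := mul_nonneg hl.le hb0x
      linarith
    have hi : 10 ^ 5 * H ^ 2 * l⁻¹ ≤ 1 := by
      rw [← div_eq_mul_inv, div_le_one hl]
      exact hHl
    obtain ⟨s1, s2, s3, s4, s5⟩ := hS (E q →L[ℝ] ℝ) (fderiv ℝ b0 x) (fderiv ℝ b1 x) (fderiv ℝ u x)
      (EE0 l (b0 x)) (FF1 l (b1 x)) (u x) l⁻¹ H hH (hEpos x) he1 (hFpos x) (hFlt x) hux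
      (inv_pos.2 hl) hi hU g1 g2 g3 hcases (P X) rfl (fderiv ℝ P X) hd1
    refine ⟨s1, ?_, s2, s3, s4⟩
    intro ξ
    rw [hd2 ξ]
    refine s5 ‖ξ‖ _ _ _ _ _ _ (norm_nonneg _) ?_ ?_ ?_ ?_ ?_ ?_
    · exact (fderiv ℝ b0 x).le_opNorm ξ
    · exact (fderiv ℝ b1 x).le_opNorm ξ
    · exact (fderiv ℝ u x).le_opNorm ξ
    · rw [← Real.norm_eq_abs, sq, ← mul_assoc]
      refine ((fderiv ℝ (fderiv ℝ b0) x ξ).le_opNorm ξ).trans ?_
      refine mul_le_mul_of_nonneg_right ?_ (norm_nonneg _)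
      exact ((fderiv ℝ (fderiv ℝ b0) x).le_opNorm ξ).trans
        (mul_le_mul_of_nonneg_right g4 (norm_nonneg _))
    · rw [← Real.norm_eq_abs, sq, ← mul_assoc]
      refine ((fderiv ℝ (fderiv ℝ b1) x ξ).le_opNorm ξ).trans ?_
      refine mul_le_mul_of_nonneg_right ?_ (norm_nonneg _)
      exact ((fderiv ℝ (fderiv ℝ b1) x).le_opNorm ξ).trans
        (mul_le_mul_of_nonneg_right g5 (norm_nonneg _))
    · rw [← Real.norm_eq_abs, sq, ← mul_assoc]
      refine ((fderiv ℝ (fderiv ℝ u) x ξ).le_opNorm ξ).trans ?_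
      refine mul_le_mul_of_nonneg_right ?_ (norm_nonneg _)
      exact ((fderiv ℝ (fderiv ℝ u) x).le_opNorm ξ).trans
        (mul_le_mul_of_nonneg_right g6 (norm_nonneg _))
  · -- ν smooth
    have hE : ContDiff ℝ ∞ (fun x => EE0 l (b0 x)) := by
      unfold EE0
      exact ((contDiff_const.mul (contDiff_const.mul hb0)).neg).exp
    have hE1 : ContDiff ℝ ∞ (fun x => exp (-(32 * (l * b1 x)))) :=
      ((contDiff_const.mul (contDiff_const.mul hb1)).neg).exp
    have hF : ContDiff ℝ ∞ (fun x => FF1 l (b1 x)) := by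
      unfold FF1
      refine ContDiff.inv (contDiff_const.add (contDiff_const.mul hE1)) ?_
      intro x
      have : 0 < exp (-(32 * (l * b1 x))) := exp_pos _
      positivity
    have hχ1 : ContDiff ℝ ∞ (fun x => χ (23 / 2 * (l * b0 x))) :=
      hχs.comp (contDiff_const.mul (contDiff_const.mul hb0))
    exact (((contDiff_const.mul (contDiff_const.mul hχ1)).div hN0 (fun x => (hN0p x).ne')).mul
      (contDiff_const.add (contDiff_const.mul hF))).add hE
  · have hE : ContDiff ℝ ∞ (fun x => EE0 l (b0 x)) := by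
      unfold EE0
      exact ((contDiff_const.mul (contDiff_const.mul hb0)).neg).exp
    have hE1 : ContDiff ℝ ∞ (fun x => exp (-(32 * (l * b1 x)))) :=
      ((contDiff_const.mul (contDiff_const.mul hb1)).neg).exp
    have hχ1 : ContDiff ℝ ∞ (fun x => χ (32 * (l * b1 x))) :=
      hχs.comp (contDiff_const.mul (contDiff_const.mul hb1))
    refine ((contDiff_const.sub hE).mul (((contDiff_const.mul (contDiff_const.mul hχ1))).div
      (hN1.mul (contDiff_const.add (contDiff_const.mul hE1))) (fun x => ?_))).add hE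
    have := hN1p x
    have : 0 < exp (-(32 * (l * b1 x))) := exp_pos _
    positivity
  · intro x hux
    have h1 := hχp (23 / 2 * (l * b0 x))
    have h2 := hN0p x
    have h3 := hFpos x
    have h4 := hEpos x
    have h5 := hχp (32 * (l * b1 x))
    have h6 := hN1p x
    have h7 : 0 < exp (-(32 * (l * b1 x))) := exp_pos _
    have hb0x : 0 ≤ b0 x := by
      by_contra hcon
      have : b0 x * N0 x < 0 := mul_neg_of_neg_of_pos (not_le.1 hcon) h2
      rw [hbN0] at this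
      linarith
    have he1 : EE0 l (b0 x) ≤ 1 := by
      unfold EE0
      rw [Real.exp_le_one_iff]
      have : 0 ≤ l * b0 x := mul_nonneg hl.le hb0x
      linarith
    constructor
    · positivity
    · have h8 : 0 ≤ (1 - EE0 l (b0 x)) * (48 / 5 * (l * χ (32 * (l * b1 x))) /
        (N1 x * (1 + 2 / 3 * exp (-(32 * (l * b1 x)))))) :=
        mul_nonneg (by linarith) (by positivity)
      linarith
  · intro x
    show PP l (u (l⁻¹ • l • x)) (b0 (l⁻¹ • l • x)) (b1 (l⁻¹ • l • x)) = _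
    rw [inv_smul_smul₀ hl.ne']
    have h2 := (hN0p x).ne'
    have e1 : 23 / 2 * (l * b0 x) * χ (23 / 2 * (l * b0 x)) = 1 - EE0 l (b0 x) := by
      rw [hχ]; rfl
    unfold PP
    rw [← e1, ← hbN0 x]
    field_simp
  · intro x
    show 1 - PP l (u (l⁻¹ • l • x)) (b0 (l⁻¹ • l • x)) (b1 (l⁻¹ • l • x)) = _
    rw [inv_smul_smul₀ hl.ne']
    have h2 := (hN1p x).ne'
    have h7 : 0 < exp (-(32 * (l * b1 x))) := exp_pos _
    have e1 : 32 * (l * b1 x) * χ (32 * (l * b1 x)) = 1 - exp (-(32 * (l * b1 x))) := hχ _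
    have hu1 : u x = 1 + b1 x * N1 x := by rw [hbN1]; ring
    have h8 : (1 + 2 / 3 * exp (-(32 * (l * b1 x)))) ≠ 0 := by positivity
    have e2 : 9 / 20 - 3 / 4 * FF1 l (b1 x) = 48 / 5 * (l * χ (32 * (l * b1 x))) /
        (N1 x * (1 + 2 / 3 * exp (-(32 * (l * b1 x))))) * (1 - u x) := by
      have h9 : 9 / 20 - 3 / 4 * FF1 l (b1 x) =
          -(3 / 10 * (1 - exp (-(32 * (l * b1 x))))) / (1 + 2 / 3 * exp (-(32 * (l * b1 x)))) := by
        unfold FF1
        rw [eq_div_iff h8, sub_mul, mul_assoc (3 / 4 : ℝ), inv_mul_cancel₀ h8]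
        ring
      rw [h9, ← e1, hu1]
      generalize 1 + 2 / 3 * exp (-(32 * (l * b1 x))) = w at h8
      generalize χ (32 * (l * b1 x)) = c
      field_simp
      ring
    have e3 : 1 - PP l (u x) (b0 x) (b1 x) =
        (1 - EE0 l (b0 x)) * (9 / 20 - 3 / 4 * FF1 l (b1 x)) + EE0 l (b0 x) * (1 - u x) := by
      unfold PP; ring
    rw [e3, e2]
    ring

end Pool.Agent.Helper10.BD.PROF
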