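import Pool.Agent.Helper10.BD.Goals

/-!
# Project BD: the universal map

A thick map turns every immersed submanifold of curvature at most `21` of
`ℝ^q × {|y|² ≤ 0.324} × {|v| ≤ 0.1}` into one of curvature at most `100` of the unit ball.
-/

open scoped ContDiff
open Real Filter Topology

namespace Pool.Agent.Helper10.BD.WRAP

open Pool.Agent.Helper50.BC (E)
open Pool.Agent.Helper10.BD

/-- the square of the Euclidean norm of `ℝ^q × ℝ^r × ℝ^j` -/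
noncomputable def sq {q r j : ℕ} (ξ : E q × E r × E j) : ℝ :=
  ‖ξ.1‖ ^ 2 + ‖ξ.2.1‖ ^ 2 + ‖ξ.2.2‖ ^ 2

lemma sq_nonneg' {q r j : ℕ} (ξ : E q × E r × E j) : 0 ≤ sq ξ := by unfold sq; positivity

lemma sq_eq_zero {q r j : ℕ} {ξ : E q × E r × E j} (h : sq ξ = 0) : ξ = 0 := by
  unfold sq at h
  have h1 : ‖ξ.1‖ ^ 2 = 0 := by nlinarith [sq_nonneg ‖ξ.1‖, sq_nonneg ‖ξ.2.1‖, sq_nonneg ‖ξ.2.2‖]
  have h2 : ‖ξ.2.1‖ ^ 2 = 0 := by
    nlinarith [sq_nonneg ‖ξ.1‖, sq_nonneg ‖ξ.2.1‖, sq_nonneg ‖ξ.2.2‖]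
  have h3 : ‖ξ.2.2‖ ^ 2 = 0 := by
    nlinarith [sq_nonneg ‖ξ.1‖, sq_nonneg ‖ξ.2.1‖, sq_nonneg ‖ξ.2.2‖]
  have e1 : ξ.1 = 0 := by rw [← norm_eq_zero]; exact pow_eq_zero_iff two_ne_zero |>.1 h1
  have e2 : ξ.2.1 = 0 := by rw [← norm_eq_zero]; exact pow_eq_zero_iff two_ne_zero |>.1 h2
  have e3 : ξ.2.2 = 0 := by rw [← norm_eq_zero]; exact pow_eq_zero_iff two_ne_zero |>.1 h3
  exact Prod.ext e1 (Prod.ext e2 e3)

/-- second derivative of a composition -/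
lemma comp_second {X Y Z : Type} [NormedAddCommGroup X] [NormedSpace ℝ X] [NormedAddCommGroup Y]
    [NormedSpace ℝ Y] [NormedAddCommGroup Z] [NormedSpace ℝ Z] {f : Y → Z} {φ : X → Y} {x : X}
    (hf : ContDiff ℝ ∞ f) (hφ : ContDiffAt ℝ 2 φ x) (v : X) :
    fderiv ℝ (fderiv ℝ (f ∘ φ)) x v v =
      fderiv ℝ (fderiv ℝ f) (φ x) (fderiv ℝ φ x v) (fderiv ℝ φ x v) +
        fderiv ℝ f (φ x) (fderiv ℝ (fderiv ℝ φ) x v v) := by
  have hfd : Differentiable ℝ f := hf.differentiable (by simp)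
  have hfd2 : Differentiable ℝ (fderiv ℝ f) :=
    (hf.fderiv_right (m := ∞) (by simp)).differentiable (by simp)
  have hev : ∀ᶠ y in 𝓝 x, ContDiffAt ℝ 2 φ y := hφ.eventually (by simp)
  have h1 : fderiv ℝ (f ∘ φ) =ᶠ[𝓝 x] fun y => (fderiv ℝ f (φ y)).comp (fderiv ℝ φ y) := by
    filter_upwards [hev] with y hy
    exact fderiv_comp y (hfd _) (hy.differentiableAt (by norm_num))
  rw [h1.fderiv_eq]
  have hd : HasFDerivAt φ (fderiv ℝ φ x) x := (hφ.differentiableAt (by norm_num)).hasFDerivAt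
  have h2 : HasFDerivAt (fun y => fderiv ℝ f (φ y))
      ((fderiv ℝ (fderiv ℝ f) (φ x)).comp (fderiv ℝ φ x)) x :=
    (hfd2 (φ x)).hasFDerivAt.comp x hd
  have h3 : DifferentiableAt ℝ (fderiv ℝ φ) x :=
    (hφ.fderiv_right (m := 1) (by norm_num)).differentiableAt (by norm_num)
  have h4 := (h2.clm_comp h3.hasFDerivAt).fderiv
  rw [h4]
  simp [add_comm]

theorem wrap {q r j n : ℕ} {Ψ : E q × E r × E j → E n} {S a B b : ℝ} (hΨ : THK3 Ψ S a B b)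
    (hS : 0 < S) (ha : 0 < a) (hB : 0 ≤ B) (hSb : S * (b + 21 * B) ≤ 100 * a) :
    ContDiff ℝ ∞ (fun p => S⁻¹ • Ψ p) ∧
    ∀ (m : ℕ) (φ : E m → E q × E r × E j) (x : E m), ContDiffAt ℝ 2 φ x →
      ‖(φ x).2.1‖ ^ 2 ≤ 324 / 1000 → ‖(φ x).2.2‖ ≤ 1 / 10 →
      ‖S⁻¹ • Ψ (φ x)‖ ≤ 1 ∧
      (Function.Injective (fderiv ℝ φ x) →
        Function.Injective (fderiv ℝ ((fun p => S⁻¹ • Ψ p) ∘ φ) x)) ∧
      ((∀ v, ∃ w, √(sq (fderiv ℝ (fderiv ℝ φ) x v v - fderiv ℝ φ x w)) ≤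
          21 * sq (fderiv ℝ φ x v)) →
        ∀ v, ∃ w, ‖fderiv ℝ (fderiv ℝ ((fun p => S⁻¹ • Ψ p) ∘ φ)) x v v -
          fderiv ℝ ((fun p => S⁻¹ • Ψ p) ∘ φ) x w‖ ≤
            100 * ‖fderiv ℝ ((fun p => S⁻¹ • Ψ p) ∘ φ) x v‖ ^ 2) := by
  obtain ⟨hs, hb⟩ := hΨ
  have hf : ContDiff ℝ ∞ (fun p => S⁻¹ • Ψ p) := hs.const_smul _
  refine ⟨hf, ?_⟩
  intro m φ x hφ hy hz
  obtain ⟨h1, h2, h3, h4⟩ := hb (φ x) hz hy
  set f : E q × E r × E j → E n := fun p => S⁻¹ • Ψ p with hfdef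
  have hfd : ∀ p, fderiv ℝ f p = S⁻¹ • fderiv ℝ Ψ p := fun p =>
    (((hs.differentiable (by simp)) p).hasFDerivAt.const_smul S⁻¹).fderiv
  have hfd2 : fderiv ℝ (fderiv ℝ f) (φ x) = S⁻¹ • fderiv ℝ (fderiv ℝ Ψ) (φ x) := by
    have : fderiv ℝ f = fun p => S⁻¹ • fderiv ℝ Ψ p := funext hfd
    rw [this]
    have hd2 : Differentiable ℝ (fderiv ℝ Ψ) :=
      (hs.fderiv_right (m := ∞) (by simp)).differentiable (by simp)
    exact ((hd2 (φ x)).hasFDerivAt.const_smul S⁻¹).fderiv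
  have hc : fderiv ℝ (f ∘ φ) x = (fderiv ℝ f (φ x)).comp (fderiv ℝ φ x) :=
    fderiv_comp x ((hf.differentiable (by simp)) _) (hφ.differentiableAt (by norm_num))
  have hSi : 0 < S⁻¹ := inv_pos.2 hS
  refine ⟨?_, ?_, ?_⟩
  · rw [norm_smul, Real.norm_of_nonneg hSi.le, ← div_eq_inv_mul, div_le_one hS]
    exact h1
  · intro hinj
    rw [hc]
    rw [injective_iff_map_eq_zero]
    intro v hv
    have e1 : S⁻¹ • fderiv ℝ Ψ (φ x) (fderiv ℝ φ x v) = 0 := by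
      rw [← hv, hfd]; rfl
    have e2 : fderiv ℝ Ψ (φ x) (fderiv ℝ φ x v) = 0 :=
      (smul_eq_zero.1 e1).resolve_left hSi.ne'
    have e3 := h2 (fderiv ℝ φ x v)
    rw [e2, norm_zero] at e3
    have e4 : sq (fderiv ℝ φ x v) = 0 := by
      have := sq_nonneg' (fderiv ℝ φ x v)
      unfold sq at this ⊢
      nlinarith
    have e5 := sq_eq_zero e4
    apply hinj
    rw [e5, map_zero]
  · intro hcurv v
    obtain ⟨w, hw⟩ := hcurv v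
    refine ⟨w, ?_⟩
    set d : E q × E r × E j := fderiv ℝ φ x v with hd
    set N : E q × E r × E j := fderiv ℝ (fderiv ℝ φ) x v v - fderiv ℝ φ x w with hN
    have e1 : fderiv ℝ (fderiv ℝ (f ∘ φ)) x v v - fderiv ℝ (f ∘ φ) x w =
        S⁻¹ • (fderiv ℝ (fderiv ℝ Ψ) (φ x) d d + fderiv ℝ Ψ (φ x) N) := by
      rw [comp_second hf hφ v, hc, hfd2, hfd, hN, map_sub]
      simp only [_root_.smul_apply, ContinuousLinearMap.comp_apply, smul_add, smul_sub]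
      rw [← hd]
      abel
    have e2 : fderiv ℝ (f ∘ φ) x v = S⁻¹ • fderiv ℝ Ψ (φ x) d := by
      rw [hc, hfd]; rfl
    have hsq : 0 ≤ sq d := sq_nonneg' d
    have e3 : ‖fderiv ℝ Ψ (φ x) N‖ ≤ B * √(sq N) := by
      have := h3 N
      have h5 : ‖fderiv ℝ Ψ (φ x) N‖ ^ 2 ≤ (B * √(sq N)) ^ 2 := by
        rw [mul_pow, Real.sq_sqrt (sq_nonneg' N)]
        exact this
      exact le_of_sq_le_sq h5 (by positivity) |> fun h => by simpa using h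
    have e4 : ‖fderiv ℝ Ψ (φ x) N‖ ≤ B * (21 * sq d) :=
      e3.trans (mul_le_mul_of_nonneg_left hw hB)
    have e5 : ‖fderiv ℝ (fderiv ℝ Ψ) (φ x) d d‖ ≤ b * sq d := h4 d
    have e6 : a * sq d ≤ ‖fderiv ℝ Ψ (φ x) d‖ ^ 2 := h2 d
    rw [e1, e2, norm_smul, norm_smul, Real.norm_of_nonneg hSi.le, mul_pow]
    have e7 : ‖fderiv ℝ (fderiv ℝ Ψ) (φ x) d d + fderiv ℝ Ψ (φ x) N‖ ≤ (b + 21 * B) * sq d := by
      refine (norm_add_le _ _).trans ?_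
      linarith
    have e8 : S * ((b + 21 * B) * sq d) ≤ 100 * ‖fderiv ℝ Ψ (φ x) d‖ ^ 2 := by
      have h6 := mul_le_mul_of_nonneg_right hSb hsq
      nlinarith
    have e9 : S⁻¹ * ‖fderiv ℝ (fderiv ℝ Ψ) (φ x) d d + fderiv ℝ Ψ (φ x) N‖ ≤
        S⁻¹ * ((b + 21 * B) * sq d) := mul_le_mul_of_nonneg_left e7 hSi.le
    refine e9.trans ?_
    have e10 : S⁻¹ * ((b + 21 * B) * sq d) = S⁻¹ ^ 2 * (S * ((b + 21 * B) * sq d)) := by
      field_simp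
    rw [e10]
    have e11 := mul_le_mul_of_nonneg_left e8 (by positivity : 0 ≤ S⁻¹ ^ 2)
    linarith

end Pool.Agent.Helper10.BD.WRAP
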